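import Mathlib
import Pool.Agent.H88.Lz2
import Pool.Agent.H88.FpDefs

open Pool.Agent.H88.Fp Pool.Agent.H88.Pex

theorem Pool.Agent.Results.MP_c4013e_an.No.result (p : ℝ) (hp : 0 < p) (hp1 : p < 1) :
    ∃ (X : Type) (_ : AddCommGroup X) (_ : Module ℝ X) (ν : X → ℝ) (r : ℝ) (x : ℕ → X)
      (f : ℕ → X →ₗ[ℝ] ℝ), 0 < r ∧ r ≤ 1 ∧ IsPBanach ℝ r ν ∧ ¬FiniteDimensional ℝ X ∧
      (∀ μ, μ ∈ cspan ℝ ν x Set.univ) ∧ (∀ k n, f k (x n) = if k = n then 1 else 0) ∧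
      (∃ a b : ℝ, 0 < a ∧ ∀ n, a ≤ ν (x n) ∧ ν (x n) ≤ b ∧ ∀ y, |f n y| ≤ b * ν y) ∧
      (∃ C : ℝ, ∀ (m : ℕ) (A B : Finset ℕ), A.card ≤ m → B.card ≤ m →
        ∀ y, ν (∑ n ∈ A, x n) * |∑ n ∈ B, f n y| ≤ C * m * ν y) ∧
      ∀ (Y : Submodule ℝ X) (N : Y → ℝ) (C : ℝ), 1 ≤ C →
        (∀ y z, N (y + z) ^ p ≤ N y ^ p + N z ^ p) →
        (∀ y : Y, C⁻¹ * ν y ≤ N y ∧ N y ≤ C * ν y) → FiniteDimensional ℝ Y := by
  have hq := half_pos hp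
  obtain ⟨X, _, _, e, c, h1, h2, h3, h4, h5, h6, h7⟩ := H88.Lz.lorentz hq (by linarith)
  have hν : ∀ x : X, ‖x‖ = (‖x‖ ^ (p / 2)⁻¹) ^ (p / 2) := fun x =>
    (Real.rpow_inv_rpow (norm_nonneg _) hq.ne').symm
  have a : ∀ A : Finset ℕ, ‖∑ n ∈ A, e n‖ ^ (p / 2)⁻¹ ≤ 2 ^ (p / 2)⁻¹ * A.card := fun A => by
    refine (Real.rpow_le_rpow (norm_nonneg _) (h6 A) (by positivity)).trans_eq ?_
    rw [Real.mul_rpow zero_le_two (Real.rpow_nonneg (Nat.cast_nonneg _) _),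
      Real.rpow_rpow_inv (Nat.cast_nonneg _) hq.ne']
  have b : (1 : ℝ) ≤ 2 ^ (p / 2)⁻¹ := Real.one_le_rpow one_le_two (by positivity)
  refine ⟨X, inferInstance, inferInstance, fun x => ‖x‖ ^ (p / 2)⁻¹, p / 2, e, c, hq, by linarith,
    h2.banach hq, fun hX => ?_, fun μ => (mem_cspan (h2.banach hq) hq hν).2 (h3 μ), h4,
    ⟨1, 2 ^ (p / 2)⁻¹, one_pos, fun n => ⟨by simpa [h4] using h5 {n} (e n), by simpa using a {n},
      fun y => le_trans (by simpa using h5 {n} y) (le_mul_of_one_le_left (by positivity) b)⟩⟩,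
    ⟨2 ^ (p / 2)⁻¹, fun m A B hA _ y => mul_le_mul ((a A).trans (mul_le_mul_of_nonneg_left
      (Nat.cast_le.2 hA) (by positivity))) ((Finset.abs_sum_le_sum_abs _ _).trans (h5 B y))
      (abs_nonneg _) (by positivity)⟩, fun Y N C C1 N1 N2 => ?_⟩
  · have := (LinearIndependent.of_pairwise_dual_eq_zero_one e c (fun i j hij => by simp [h4, hij])
      fun i => by simp [h4]).finite
    exact not_finite ℕ
  by_contra hY
  have N0 : ∀ y, 0 ≤ N y := fun y => le_trans (by positivity) (N2 y).1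
  obtain ⟨k, hk⟩ := exists_nat_gt (16 * (C ^ p * C ^ p))
  obtain ⟨y, ⟨hy, y1⟩, y2⟩ := h7 Y hY (fun k y => ∃ hy : y ∈ Y, N ⟨y, hy⟩ ^ p ≤ k * C ^ p)
    ⟨Y.zero_mem, by
      rw [le_antisymm (by simpa [hp.ne'] using (N2 ⟨0, Y.zero_mem⟩).2) (N0 _)]
      simp [hp.ne']⟩
    (fun k y z ⟨hy, s⟩ hz t => ⟨Y.add_mem hy hz, (N1 ⟨y, hy⟩ ⟨z, hz⟩).trans (by
      have := Real.rpow_le_rpow (N0 _) (by simpa [t] using (N2 ⟨z, hz⟩).2) hp.le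
      push_cast
      linarith)⟩) k
  have s := Real.rpow_le_rpow (by positivity) ((inv_mul_le_iff₀ (by positivity)).1
    (N2 ⟨y, hy⟩).1) hp.le
  rw [Real.mul_rpow (by positivity) (N0 _), ← Real.rpow_mul (norm_nonneg _),
    show (p / 2)⁻¹ * p = 2 by field_simp, Real.rpow_two] at s
  have t : (0 : ℝ) < k := lt_of_le_of_lt (by positivity) hk
  have u := mul_le_mul_of_nonneg_left y1 (show 0 ≤ C ^ p by positivity)
  nlinarith [mul_self_le_mul_self (by positivity) y2]
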